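import Pool.Agent.Helper23.Trade.Main

/-!
# 3-trade robust simple games with at most three types of voters are weighted
-/

universe u

namespace Pool.Agent.Results.MP_35f484_co.ThreeTypes

open Pool.Agent.Helper23.Trade

/-- Every simple game (complete or not) on a finite voter set with at most three types of voters
which is 3-trade robust is weighted. -/
theorem result (N : Type u) [Fintype N] [DecidableEq N] (W : Set (Finset N))
    (hgame : IsSimpleGame W) (htypes : numTypes W ≤ 3) (hrobust : TradeRobust W 3) :
    Weighted W :=
  main hgame htypes hrobust

end Pool.Agent.Results.MP_35f484_co.ThreeTypes
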